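import Pool.Agent.Lib_helper75.Bent.Final

/-!
A lower bound for the number of bent functions: `log₂ |B_n| ≥ (n - 8) 2^{n/2}` for all even `n`.
-/

open Pool.Agent.Lib_helper75.Bent

namespace Pool.Agent.Results.MP_bb510f_co.LowerBound

/-- For every even `n` the number `|B_n|` of bent functions in `n` variables satisfies
`log₂ |B_n| ≥ (n - 8) 2^{n/2}`. -/
theorem result (n : ℕ) (hn : Even n) :
    ((n : ℝ) - 8) * 2 ^ (n / 2) ≤ Real.logb 2 (numBent n : ℝ) :=
  main_bound n hn

end Pool.Agent.Results.MP_bb510f_co.LowerBound
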