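import Pool.Agent.Lib_helper92.BGA.Final2

/-!
An upper bound for the number of bent functions: `log₂ |B_n| ≤ C n² 2^{n - v_n}` with
`v_n = n C(n,n/2) / 2^{n+1}`, which is asymptotic to `√(n/(2π))`; hence `log₂ |B_n| = o(2^n)`.
-/

open Pool.Agent.Lib_helper75.Bent

namespace Pool.Agent.Results.MP_bb510f_co.UpperBound

/-- There is a constant `C` such that for every even `n ≥ 2` the number `|B_n|` of bent functions in
`n` variables satisfies `log₂ |B_n| ≤ C n² 2^{n - v_n}`, where `v_n = n C(n,n/2) / 2^{n+1}`. -/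
theorem result : ∃ C : ℝ, ∀ n : ℕ, Even n → 2 ≤ n →
    Real.logb 2 (numBent n : ℝ) ≤
      C * (n : ℝ) ^ 2 * 2 ^ ((n : ℝ) - n * (n.choose (n / 2) : ℝ) / 2 ^ (n + 1)) :=
  Pool.Agent.BF.bent_upper2

end Pool.Agent.Results.MP_bb510f_co.UpperBound
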